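import Mathlib
import Pool.Agent.Helper75.Defs
import Pool.Agent.Helper75.F2Defs
import Pool.Agent.Helper75.Basic
import Pool.Agent.Helper75.F2Lemmas

namespace Pool.Agent.Results.MP_47cbd1_al.NonInvertible

open scoped commutatorElement
open Pool.Agent.Helper75.Defs Pool.Agent.Helper75.F2Defs Pool.Agent.Helper75.Basic
  Pool.Agent.Helper75.F2Lemmas

/-- Sanity check: the profinite power is a genuine limit. -/
theorem ppow_is_limit (g : F2) (l : Zhat) : Filter.Tendsto
    (fun k : ℕ => g ^ res l ⟨k.factorial, k.factorial_pos⟩) Filter.atTop (nhds (ppow g l)) :=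
  tendsto_ppow g l

/-- Sanity check: `ev a b` sends `x` to `a` and `y` to `b`. -/
theorem ev_spec (a b : F2) : ev a b X = a ∧ ev a b Y = b := ⟨ev_X a b, ev_Y a b⟩

/-- Sanity check: a continuous endomorphism is determined by its values on `x` and `y`. -/
theorem endo_unique (φ ψ : F2 →ₜ* F2) (hX : φ X = ψ X) (hY : φ Y = ψ Y) : φ = ψ :=
  hom_ext_XY hX hY

/-- For every unit `l` of the profinite integers there is an element `f` of the closed derived
subgroup of the free profinite group on `x, y`, which moreover satisfies `f(x,y) f(y,x) = 1`,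
such that the continuous endomorphism `x ↦ x ^ l`, `y ↦ f⁻¹ y ^ l f` is not surjective. -/
theorem result (l : Zhatˣ) :
    ∃ f ∈ derived, RelI f ∧ ∃ φ : F2 →ₜ* F2, IsPhi l f φ ∧ ¬ Function.Surjective φ := by
  refine ⟨⁅Y, X⁆, ?_, ?_, ev (ppow X l) (⁅Y, X⁆⁻¹ * ppow Y l * ⁅Y, X⁆), ⟨ev_X _ _, ev_Y _ _⟩, ?_⟩
  · exact subset_closure
      (Subgroup.commutator_mem_commutator (Subgroup.mem_top _) (Subgroup.mem_top _))
  · rw [RelI, map_commutatorElement, ev_X, ev_Y, commutatorElement_def, commutatorElement_def]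
    group
  · intro hs
    obtain ⟨ρ, hX, hY, ho⟩ := exists_finite_XY (Equiv.swap (0 : Fin 3) 1) (Equiv.swap (1 : Fin 3) 2)
    set φ := ev (ppow X l) (⁅Y, X⁆⁻¹ * ppow Y l * ⁅Y, X⁆) with hφ
    have hodd : Odd (res (l : Zhat) 2) := by
      have := res_unit_coprime l 2
      exact (Nat.coprime_two_right.1 this)
    have hsq : ∀ a : Equiv.Perm (Fin 3), a ^ 2 = 1 → a ^ res (l : Zhat) 2 = a := by
      intro a ha
      obtain ⟨k, hk⟩ := hodd
      rw [hk, pow_add, pow_mul, ha, one_pow, one_mul, pow_one]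
    have hX2 : ρ (ppow X l) = Equiv.swap (0 : Fin 3) 1 := by
      rw [fin_ppow ρ ho X l 2 (by rw [hX]; decide), hX]
      exact hsq _ (by decide)
    have hY2 : ρ (ppow Y l) = Equiv.swap (1 : Fin 3) 2 := by
      rw [fin_ppow ρ ho Y l 2 (by rw [hY]; decide), hY]
      exact hsq _ (by decide)
    have h1 : (ρ.comp φ.toMonoidHom) X = Equiv.swap (0 : Fin 3) 1 := by
      show ρ (φ X) = _
      rw [hφ, ev_X, hX2]
    have h2 : (ρ.comp φ.toMonoidHom) Y = Equiv.swap (0 : Fin 3) 1 := by
      show ρ (φ Y) = _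
      rw [hφ, ev_Y, map_mul, map_mul, map_inv, hY2, map_commutatorElement, hX, hY]
      decide
    have ho2 : IsOpen ((ρ.comp φ.toMonoidHom).ker : Set F2) := by
      have : ((ρ.comp φ.toMonoidHom).ker : Set F2) = φ ⁻¹' (ρ.ker : Set F2) := rfl
      rw [this]
      exact ho.preimage φ.continuous_toFun
    obtain ⟨g, hg⟩ := hs Y
    have h3 := mem_of_gen (ρ.comp φ.toMonoidHom) ho2
      (Subgroup.centralizer {Equiv.swap (0 : Fin 3) 1})
      (by rw [h1, Subgroup.mem_centralizer_singleton_iff])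
      (by rw [h2, Subgroup.mem_centralizer_singleton_iff]) g
    have h4 : (ρ.comp φ.toMonoidHom) g = ρ Y := by
      show ρ (φ g) = ρ Y
      rw [hg]
    rw [h4, hY, Subgroup.mem_centralizer_singleton_iff] at h3
    revert h3
    decide

end Pool.Agent.Results.MP_47cbd1_al.NonInvertible
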